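import Mathlib

namespace Pool.Agent.Results.MP_5cc272_an.Counter

open Polynomial

/-- The Haar weights `h(n) = ∏_{k=1}^n a_{k-1} / c_k`, where `a_0 = 1`, `a_k = 1 - c_k`. -/
noncomputable def haar (c : ℕ → ℝ) (n : ℕ) : ℝ :=
  ∏ k ∈ Finset.Icc 1 n, (if k = 1 then 1 else 1 - c (k - 1)) / c k

noncomputable def e : ℕ → ℝ
  | 0 => 1
  | 1 => 2 / 5
  | n + 2 => (1 / 8) ^ (n + 1)

noncomputable def c (n : ℕ) : ℝ := if n % 2 = 0 then 1 - e n else e n

noncomputable def a (n : ℕ) : ℝ := 1 - c n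

noncomputable def P : ℕ → ℝ[X]
  | 0 => 1
  | 1 => X
  | n + 2 => (1 / a (n + 1)) • (X * P (n + 1) - c (n + 1) • P n)

theorem e_bd : ∀ n, 0 < e (n + 1) ∧ e (n + 1) ≤ 2 / 5
  | 0 => by simp [e]
  | n + 1 => by
    simp only [e, pow_succ]
    have : (1 / 8 : ℝ) ^ n ≤ 1 := pow_le_one₀ (by norm_num) (by norm_num)
    exact ⟨by positivity, by linarith⟩

theorem c_bd (n : ℕ) : 0 < c (n + 1) ∧ c (n + 1) < 1 := by
  have := e_bd n
  unfold c
  split_ifs <;> constructor <;> linarith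

theorem c0 : c 0 = 0 := by simp [c, e]

theorem a_pos : ∀ n, 0 < a n
  | 0 => by simp [a, c0]
  | n + 1 => sub_pos.2 (c_bd n).2

theorem c_nn : ∀ n, 0 ≤ c n
  | 0 => c0.ge
  | n + 1 => (c_bd n).1.le

theorem rec_P : ∀ n : ℕ, X * P n = a n • P (n + 1) + c n • P (n - 1)
  | 0 => by simp [P, a, c0]
  | n + 1 => by
    rw [P, smul_smul, mul_one_div_cancel (a_pos _).ne', one_smul]
    simp

noncomputable def al (n : ℕ) : ℝ := a n * a (n + 1)

noncomputable def ga (n : ℕ) : ℝ := c n * c (n - 1)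

theorem al_pos (n : ℕ) : 0 < al n := mul_pos (a_pos _) (a_pos _)

theorem ga_nn (n : ℕ) : 0 ≤ ga n := mul_nonneg (c_nn _) (c_nn _)

theorem rec2 (n : ℕ) :
    X * X * P n = al n • P (n + 2) + (1 - al n - ga n) • P n + ga n • P (n - 2) := by
  rw [mul_assoc, rec_P n]
  simp only [mul_add, mul_smul_comm]
  rw [rec_P (n + 1), rec_P (n - 1)]
  rcases n with _ | n
  · simp only [al, ga, a, c0, Nat.add_sub_cancel]
    match_scalars <;> ring
  · simp only [al, ga, a, Nat.add_sub_cancel, show n + 1 - 2 = n - 1 by omega]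
    match_scalars <;> ring

noncomputable def σ (n : ℕ) : ℝ := (1 / 64) ^ ((n + 1) / 2)

theorem σ_le {m n : ℕ} (h : m ≤ n) : σ n ≤ σ m :=
  pow_le_pow_of_le_one (by norm_num) (by norm_num) (Nat.div_le_div_right (by omega))

theorem σ_two (m : ℕ) : σ (m + 2) = σ m / 64 := by
  simp only [σ, show (m + 2 + 1) / 2 = (m + 1) / 2 + 1 by omega, pow_succ]; ring

theorem bds (n : ℕ) : 7 * σ (n + 3) ≤ al (n + 3) ∧ al (n + 3) ≤ 8 * σ (n + 3) ∧
    ga (n + 3) ≤ 64 * σ (n + 3) := by
  obtain ⟨j, h | h⟩ := Nat.even_or_odd' n <;> subst h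
  · have h1 := c_bd (2 * j + 1)
    have hs : σ (2 * j + 3) = (1 / 8) ^ (2 * j) / 4096 := by
      rw [σ, show (2 * j + 3 + 1) / 2 = j + 2 by omega, pow_mul, pow_add]; norm_num; ring
    have e1 : c (2 * j + 3) = (1 / 8) ^ (2 * j) / 64 := by
      rw [c, if_neg (by omega), e, pow_succ, pow_succ]; ring
    have e2 : c (2 * j + 3 + 1) = 1 - (1 / 8) ^ (2 * j) / 512 := by
      rw [c, if_pos (by omega), e, pow_succ, pow_succ, pow_succ]; ring
    have h0 : (0 : ℝ) < (1 / 8) ^ (2 * j) := by positivity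
    have h2 : ((1 : ℝ) / 8) ^ (2 * j) ≤ 1 := pow_le_one₀ (by norm_num) (by norm_num)
    simp only [al, ga, a, hs, e1, e2, show 2 * j + 3 - 1 = 2 * j + 1 + 1 by omega]
    refine ⟨?_, ?_, ?_⟩ <;> nlinarith
  · have hs : σ (2 * j + 1 + 3) = (1 / 8) ^ (2 * j) / 4096 := by
      rw [σ, show (2 * j + 1 + 3 + 1) / 2 = j + 2 by omega, pow_mul, pow_add]; norm_num; ring
    have e1 : c (2 * j + 3) = (1 / 8) ^ (2 * j) / 64 := by
      rw [c, if_neg (by omega), e, pow_succ, pow_succ]; ring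
    have e2 : c (2 * j + 1 + 3) = 1 - (1 / 8) ^ (2 * j) / 512 := by
      rw [c, if_pos (by omega), e, pow_succ, pow_succ, pow_succ]; ring
    have e3 : c (2 * j + 1 + 3 + 1) = (1 / 8) ^ (2 * j) / 4096 := by
      rw [c, if_neg (by omega), e, pow_succ, pow_succ, pow_succ, pow_succ]; ring
    have h0 : (0 : ℝ) < (1 / 8) ^ (2 * j) := by positivity
    have h2 : ((1 : ℝ) / 8) ^ (2 * j) ≤ 1 := pow_le_one₀ (by norm_num) (by norm_num)
    simp only [al, ga, a, hs, e1, e2, e3, show 2 * j + 1 + 3 - 1 = 2 * j + 3 by omega]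
    refine ⟨?_, ?_, ?_⟩ <;> nlinarith

noncomputable def lam (m : ℕ) : ℝ := if m < 2 then 1 else 2

theorem lam_pos (m : ℕ) : 0 < lam m := by unfold lam; split_ifs <;> norm_num

theorem al_ge : ∀ m, lam (m + 1) * (9 / 8 * σ (m + 1)) ≤ al (m + 1)
  | 0 => by simp only [lam, σ, al, a, c, e]; norm_num
  | 1 => by simp only [lam, σ, al, a, c, e]; norm_num
  | m + 2 => by
    have := (bds m).1
    have : 0 < σ (m + 3) := by unfold σ; positivity
    rw [lam, if_neg (by omega)]
    linarith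

theorem eta_le (m n : ℕ) : al (m + 3 + n) + ga (m + 3 + n) ≤ 9 / 8 * σ (m + 1) := by
  have h := bds (m + n)
  have := σ_le (show m + 1 ≤ m + n + 1 by omega)
  rw [σ_two] at h
  rw [show m + 3 + n = m + n + 3 by ring]
  linarith [h.2.1, h.2.2]

theorem H1 : ∀ m n, lam m * (al (m + 2 + n) + ga (m + 2 + n)) ≤ al m
  | 0, 0 => by simp only [lam, al, ga, a, c, e]; norm_num
  | 0, n + 1 => by
    have := eta_le 0 n
    rw [show 0 + 2 + (n + 1) = 0 + 3 + n by ring, show lam 0 = 1 by simp [lam],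
      show al 0 = 3 / 5 by simp only [al, a, c, e]; norm_num]
    norm_num [σ] at this ⊢
    linarith
  | m + 1, n => (mul_le_mul_of_nonneg_left (eta_le m n) (lam_pos _).le).trans (al_ge m)

theorem H2 : ∀ m n, lam m * ga (m + 2) ≤ al m - lam m * (al (m + 2 + 2 + n) + ga (m + 2 + 2 + n))
  | 0, n => by
    have := eta_le 1 n
    rw [show lam 0 = 1 by simp [lam], show al 0 = 3 / 5 by simp only [al, a, c, e]; norm_num,
      show ga (0 + 2) = 7 / 20 by simp only [ga, c, e]; norm_num]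
    norm_num [σ] at this ⊢
    linarith
  | m + 1, n => by
    have h4 := eta_le (m + 2) n
    have h5 := (bds m).2.2
    have h6 : 0 < σ (m + 1) := by unfold σ; positivity
    have h7 := al_ge m
    have h8 := lam_pos (m + 1)
    rw [show m + 2 + 1 = m + 1 + 2 from rfl, σ_two] at h4
    rw [σ_two] at h5
    rw [show m + 1 + 2 + 2 + n = m + 2 + 3 + n by ring]
    nlinarith

def K : Set ℝ[X] := {f | ∃ (N : ℕ) (g : ℕ → ℝ), (∀ k, 0 ≤ g k) ∧
  f = ∑ k ∈ Finset.range N, g k • P k}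

theorem K_smul {f : ℝ[X]} {r : ℝ} (hr : 0 ≤ r) (hf : f ∈ K) : r • f ∈ K := by
  obtain ⟨N, g, h, rfl⟩ := hf
  exact ⟨N, fun k => r * g k, fun k => mul_nonneg hr (h k), by simp [Finset.smul_sum, smul_smul]⟩

theorem K_add {f f' : ℝ[X]} (hf : f ∈ K) (hf' : f' ∈ K) : f + f' ∈ K := by
  obtain ⟨N, g, h, rfl⟩ := hf
  obtain ⟨N', g', h', rfl⟩ := hf'
  have e : ∀ (M L : ℕ) (g : ℕ → ℝ), M ≤ L → ∑ k ∈ Finset.range M, g k • P k =
      ∑ k ∈ Finset.range L, (if k < M then g k else 0) • P k := fun M L g hML => by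
    rw [← Finset.sum_subset (Finset.range_mono hML) fun k _ hk => by
      rw [if_neg (by simpa using hk), zero_smul]]
    exact Finset.sum_congr rfl fun k hk => by rw [if_pos (by simpa using hk)]
  refine ⟨N + N', fun k => (if k < N then g k else 0) + (if k < N' then g' k else 0),
    fun k => add_nonneg (by split_ifs; exacts [h k, le_rfl]) (by split_ifs; exacts [h' k, le_rfl]),
    ?_⟩
  rw [e N (N + N') g (by omega), e N' (N + N') g' (by omega), ← Finset.sum_add_distrib]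
  simp only [add_smul]

theorem K_P (n : ℕ) : P n ∈ K :=
  ⟨n + 1, fun k => if k = n then 1 else 0, fun k => by beta_reduce; split_ifs <;> norm_num, by simp⟩

theorem key (m n : ℕ) : al m • (P (m + 2) * P n) = al n • (P m * P (n + 2)) +
    ga n • (P m * P (n - 2)) + (al m + ga m - al n - ga n) • (P m * P n) -
    ga m • (P (m - 2) * P n) := by
  have h1 : X * X * P m * P n = P m * (X * X * P n) := by ring
  rw [rec2, rec2] at h1
  simp only [mul_add, add_mul, mul_smul_comm, smul_mul_assoc] at h1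
  linear_combination (norm := module) h1

/-- The induction invariant. -/
def J (m n : ℕ) : Prop :=
  al m • (P (m + 2) * P n) - (al m - lam m * (al n + ga n)) • (P m * P n) ∈ K

theorem J_low (m n : ℕ) (hm : m < 2) (h : ∀ k, P m * P k ∈ K) : J m n := by
  have h0 : ga m = 0 := by interval_cases m <;> simp [ga, c0]
  have := K_add (K_smul (al_pos n).le (h (n + 2))) (K_smul (ga_nn n) (h (n - 2)))
  unfold J
  convert this using 1
  rw [key, h0, lam, if_pos hm]
  module

theorem main : ∀ m : ℕ, (∀ n, P m * P (m + n) ∈ K) ∧ ∀ n, J m (m + 2 + n)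
  | 0 => by
    have h : ∀ k, P 0 * P k ∈ K := fun k => by simpa [P] using K_P k
    exact ⟨fun n => h _, fun n => J_low _ _ (by norm_num) h⟩
  | 1 => by
    have h : ∀ k, P 1 * P k ∈ K := fun k => by
      rw [show P 1 = X from rfl, rec_P]
      exact K_add (K_smul (a_pos _).le (K_P _)) (K_smul (c_nn _) (K_P _))
    exact ⟨fun n => h _, fun n => J_low _ _ (by norm_num) h⟩
  | m + 2 => by
    obtain ⟨h1, h2⟩ := main m
    have ha := al_pos m
    have hl := lam_pos m
    have h : ∀ n, P (m + 2) * P (m + 2 + n) ∈ K := fun n => by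
      have h3 := h1 (2 + n)
      rw [← add_assoc] at h3
      have := K_smul (one_div_pos.2 ha).le (K_add (h2 n) (K_smul (sub_nonneg.2 (H1 m n)) h3))
      rwa [sub_add_cancel, smul_smul, one_div_mul_cancel ha.ne', one_smul] at this
    refine ⟨h, fun n => ?_⟩
    have hg : 0 < ga (m + 2) := mul_pos (c_bd (m + 1)).1 (c_bd m).1
    have hB := H2 m n
    have h7 := h2 (2 + n)
    have k1 := h (2 + n + 2)
    have k2 := h (2 + n)
    have k3 := h n
    rw [show m + 2 + (2 + n + 2) = m + 2 + 2 + n + 2 by ring] at k1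
    rw [← add_assoc] at k2 h7
    rw [show m + 2 + n = m + 2 + 2 + n - 2 by omega] at k3
    generalize m + 2 + 2 + n = N at *
    have hη : 0 ≤ al N + ga N := add_nonneg (al_pos N).le (ga_nn N)
    have hB0 : 0 < al m - lam m * (al N + ga N) := (mul_pos hl hg).trans_le hB
    have := K_add (K_add (K_add (K_smul (al_pos N).le k1) (K_smul (ga_nn N) k3))
      (K_smul (mul_nonneg hη (sub_nonneg.2 ((div_le_one hB0).2 hB))) k2))
      (K_smul (div_pos hg hB0).le h7)
    unfold J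
    convert this using 1
    rw [key, show lam (m + 2) = 2 from if_neg (by omega), Nat.add_sub_cancel]
    generalize P (m + 2) * P (N + 2) = u
    generalize P (m + 2) * P (N - 2) = v
    generalize P (m + 2) * P N = w
    generalize P m * P N = z
    obtain ⟨B, hB'⟩ : ∃ B, B = al m - lam m * (al N + ga N) := ⟨_, rfl⟩
    rw [← hB'] at hB0 ⊢
    rw [show al m = B + lam m * (al N + ga N) by linarith]
    match_scalars <;> field_simp <;> ring

theorem all_K (m n : ℕ) : P m * P n ∈ K := by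
  wlog h : m ≤ n generalizing m n
  · rw [mul_comm]; exact this n m (by omega)
  obtain ⟨k, rfl⟩ := Nat.exists_eq_add_of_le h
  exact (main m).1 k

theorem dual : ∀ k, |(P (2 * k)).eval 0| ≤ 1 ∧ (P (2 * k + 1)).eval 0 = 0
  | 0 => by simp [P]
  | k + 1 => by
    obtain ⟨h1, h2⟩ := dual k
    have ha := a_pos (2 * k + 1)
    have hc := c_nn (2 * k + 1)
    have hca : c (2 * k + 1) ≤ a (2 * k + 1) := by
      have := (e_bd (2 * k)).2
      rw [a, c, if_neg (by omega)]
      linarith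
    refine ⟨?_, ?_⟩
    · rw [show 2 * (k + 1) = 2 * k + 2 by ring, P]
      simp only [eval_smul, eval_sub, eval_mul, eval_X, zero_mul, smul_eq_mul, zero_sub, mul_neg,
        abs_neg, abs_mul, abs_of_pos (one_div_pos.2 ha), abs_of_nonneg hc]
      rw [one_div_mul_eq_div, div_le_one ha]
      nlinarith
    · rw [show 2 * (k + 1) + 1 = 2 * k + 1 + 2 by ring, P]
      simp [h2]

/-- A polynomial hypergroup with `0` in the dual space and `h(2) = 12 / 7 < 2`. -/
theorem result : ∃ (c : ℕ → ℝ) (P : ℕ → ℝ[X]), (∀ n, 1 ≤ n → 0 < c n ∧ c n < 1) ∧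
    P 0 = 1 ∧ P 1 = X ∧
    (∀ n, 1 ≤ n → X * P n = C (1 - c n) * P (n + 1) + C (c n) * P (n - 1)) ∧
    (∀ m n, ∃ (N : ℕ) (g : ℕ → ℝ), (∀ k, 0 ≤ g k) ∧
      P m * P n = ∑ k ∈ Finset.range N, C (g k) * P k) ∧
    (∀ n, |(P n).eval 0| ≤ 1) ∧ haar c 2 < 2 := by
  refine ⟨c, P, fun n hn => ?_, rfl, rfl, fun n _ => ?_, fun m n => ?_, fun n => ?_, ?_⟩
  · obtain ⟨k, rfl⟩ := Nat.exists_eq_add_of_le' hn
    exact c_bd k
  · simpa only [smul_eq_C_mul, a] using rec_P n
  · obtain ⟨N, g, h, e⟩ := all_K m n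
    exact ⟨N, g, h, by simpa only [smul_eq_C_mul] using e⟩
  · obtain ⟨k, h | h⟩ := Nat.even_or_odd' n <;> subst h
    · exact (dual k).1
    · simp [(dual k).2]
  · simp only [haar, show Finset.Icc 1 2 = {1, 2} from rfl]
    simp [c, e]
    norm_num

end Pool.Agent.Results.MP_5cc272_an.Counter
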